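import Mathlib
import Pool.Agent.R582.Coh.Main

set_option autoImplicit false

/-!
# Cohen reals force the Baire category theorem for `ℕ ^ X` and fewer than `2 ^ #X` dense open sets
-/

namespace Pool.Agent.R582.CL

open Cardinal Set
open Pool.Agent.Helper292.SP (fnot fand fall fimp fiff fex fground meets IsFun mem_fex mem_fimp
  not_fex down_meets meets_cst meets_of_mem IsFun_tot IsFun_fun)
open Pool.Agent.H631R2 (CCC NoOnto PowLE meets_of_dense mem_fiff mem_fiff_meets Cond)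
open Pool.Agent.R582.Coh (rst mem_rst le_rst exists_support ccc_cond noOnto' mk_cond_le mem_fex_self)

/-- `s` is (the graph of) a finite partial function from `X` to `ℕ`. -/
def Fn {X : Type} (s : Finset (X × ℕ)) : Prop := ∀ x m n, (x, m) ∈ s → (x, n) ∈ s → m = n

/-- (1) The family `F`, indexed by `L`, contains all subsets of `X`. (2) For every `l : L` and every
family `D`, indexed by `L`, of sets of finite partial functions from `X` to `ℕ`: if each `D i` with
`i < l` is dense (every finite partial function has an extension in `D i`), then some function `g`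
from `X` to `ℕ` extends, for every `i < l`, an element of `D i`. -/
def Hyp (X L : Type) [LinearOrder L] : Prop :=
  (∃ F : L → X → Prop, ∀ A : X → Prop, ∃ l, ∀ x, A x ↔ F l x) ∧
  ∀ (D : L → Finset (X × ℕ) → Prop) (l : L),
    (∀ i, i < l → ∀ s, Fn s → ∃ t, (s ⊆ t ∧ Fn t) ∧ D i t) →
    ∃ g : X → ℕ → Prop, ((∀ x, ∃ n, g x n) ∧ ∀ x m n, g x m ∧ g x n → m = n) ∧
      ∀ i, i < l → ∃ t, D i t ∧ ∀ x n, (x, n) ∈ t → g x n

/-- The translation of `Hyp X L` into the forcing language of `P`: functions and sets are replaced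
by names. -/
def HypN (P : Type) [Preorder P] (X L : Type) [LinearOrder L] : Set P :=
  fand
    (fex fun F : L → X → Set P => fall fun A : X → Set P => fex fun l : L => fall fun x : X =>
      fiff (meets (A x)) (meets (F l x)))
    (fall fun D : L → Finset (X × ℕ) → Set P => fall fun l : L => fimp
      (fall fun i : L => fimp (fground (i < l)) (fall fun s : Finset (X × ℕ) =>
        fimp (fground (Fn s)) (fex fun t : Finset (X × ℕ) =>
          fand (fground (s ⊆ t ∧ Fn t)) (meets (D i t)))))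
      (fex fun g : X → ℕ → Set P => fand (IsFun g) (fall fun i : L => fimp (fground (i < l))
        (fex fun t : Finset (X × ℕ) => fand (meets (D i t))
          (fall fun x : X => fall fun n : ℕ => fimp (fground ((x, n) ∈ t)) (meets (g x n)))))))

theorem exists_ext {I : Type} (r : Cond I) (c : I → Bool) (hc : ∀ a b, (a, b) ∈ r.s → c a = b)
    (F : Finset I) : ∃ r' ≤ r, (∀ a ∈ F, (a, c a) ∈ r'.s) ∧
      ∀ a b, (a, b) ∈ r'.s → (a, b) ∈ r.s ∨ a ∈ F := by
  classical
  refine ⟨⟨r.s ∪ F.image fun a => (a, c a), ?_⟩, Finset.subset_union_left, ?_, ?_⟩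
  · intro a h1 h2
    have key : ∀ b, (a, b) ∈ r.s ∪ F.image (fun a => (a, c a)) → c a = b := by
      intro b hb
      rcases Finset.mem_union.1 hb with h | h
      · exact hc a b h
      · obtain ⟨a', -, h'⟩ := Finset.mem_image.1 h
        obtain ⟨rfl, h4⟩ := Prod.mk.inj h'
        exact h4
    have h3 := key true h1
    rw [key false h2] at h3
    exact Bool.noConfusion h3
  · intro a ha
    exact Finset.mem_union_right _ (Finset.mem_image.2 ⟨a, ha, rfl⟩)
  · intro a b h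
    rcases Finset.mem_union.1 h with h | h
    · exact Or.inl h
    · obtain ⟨a', ha', h'⟩ := Finset.mem_image.1 h
      obtain ⟨rfl, h4⟩ := Prod.mk.inj h'
      exact Or.inr ha'

theorem exists_join {I : Type} {p q r : Cond I} (hp : r ≤ p) (hq : r ≤ q) :
    ∃ u : Cond I, u ≤ p ∧ u ≤ q ∧ ∀ a b, (a, b) ∈ u.s → (a, b) ∈ p.s ∨ (a, b) ∈ q.s := by
  classical
  refine ⟨⟨p.s ∪ q.s, fun i h1 h2 => r.fn i (Finset.union_subset hp hq h1)
    (Finset.union_subset hp hq h2)⟩, Finset.subset_union_left, Finset.subset_union_right,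
    fun a b h => Finset.mem_union.1 h⟩

section

variable {X I : Type}

/-- the name for the generic function -/
def gn (e : X × ℕ → I) (x : X) (n : ℕ) : Set (Cond I) :=
  {u | (e (x, n), true) ∈ u.s ∧ ∀ m < n, (e (x, m), false) ∈ u.s}

theorem gn_open (e : X × ℕ → I) (x : X) (n : ℕ) : ∀ q ∈ gn e x n, ∀ r ≤ q, r ∈ gn e x n :=
  fun _ hq _ hr => ⟨hr hq.1, fun m hm => hr (hq.2 m hm)⟩

theorem default_ok (r : Cond I) : ∃ c : I → Bool, (∀ a b, (a, b) ∈ r.s → c a = b) ∧
    ∀ a, a ∉ r.dom → c a = true := by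
  classical
  refine ⟨fun a => !decide ((a, false) ∈ r.s), ?_, ?_⟩
  · intro a b hb
    cases b
    · simp [hb]
    · simp only [Bool.not_eq_true', decide_eq_false_iff_not]
      exact r.fn a hb
  · intro a ha
    simp only [Bool.not_eq_true', decide_eq_false_iff_not]
    exact fun h => ha (Cond.mem_dom.2 ⟨_, h⟩)

/-- deciding the generic function at finitely many points -/
theorem exists_decide {e : X × ℕ → I} (he : Function.Injective e) (r : Cond I) (T : Finset X) :
    ∃ r' ≤ r, ∃ s : Finset (X × ℕ), Fn s ∧ (∀ x, x ∈ T ↔ ∃ n, (x, n) ∈ s) ∧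
      (∀ x n, (x, n) ∈ s → r' ∈ gn e x n) ∧
      ∀ x m b, (e (x, m), b) ∈ r'.s → (e (x, m), b) ∈ r.s ∨ x ∈ T := by
  classical
  obtain ⟨c, hc1, hc2⟩ := default_ok r
  have h1 : ∀ x : X, ∃ n, c (e (x, n)) = true := by
    intro x
    have h2 : {n : ℕ | e (x, n) ∈ r.dom}.Finite := by
      refine Set.Finite.preimage (f := fun n => e (x, n)) ?_ r.dom_finite
      intro m _ n _ h
      exact (Prod.mk.inj (he h)).2
    obtain ⟨n, hn⟩ := h2.exists_notMem
    exact ⟨n, hc2 _ hn⟩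
  obtain ⟨r', hr', h2, h3⟩ := exists_ext r c hc1
    (T.biUnion fun x => (Finset.range (Nat.find (h1 x) + 1)).image fun n => e (x, n))
  refine ⟨r', hr', T.image fun x => (x, Nat.find (h1 x)), ?_, ?_, ?_, ?_⟩
  · intro x m n hm hn
    obtain ⟨y, -, hy⟩ := Finset.mem_image.1 hm
    obtain ⟨z, -, hz⟩ := Finset.mem_image.1 hn
    obtain ⟨rfl, rfl⟩ := Prod.mk.inj hy
    obtain ⟨rfl, rfl⟩ := Prod.mk.inj hz
    rfl
  · intro x
    constructor
    · intro hx
      exact ⟨_, Finset.mem_image.2 ⟨x, hx, rfl⟩⟩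
    · rintro ⟨n, hn⟩
      obtain ⟨y, hy, hyx⟩ := Finset.mem_image.1 hn
      obtain ⟨rfl, -⟩ := Prod.mk.inj hyx
      exact hy
  · intro x n hn
    obtain ⟨y, hy, hyx⟩ := Finset.mem_image.1 hn
    obtain ⟨rfl, rfl⟩ := Prod.mk.inj hyx
    have hmem : ∀ m, m < Nat.find (h1 y) + 1 → (e (y, m), c (e (y, m))) ∈ r'.s := by
      intro m hm
      apply h2
      exact Finset.mem_biUnion.2 ⟨y, hy, Finset.mem_image.2 ⟨m, Finset.mem_range.2 hm, rfl⟩⟩
    refine ⟨?_, ?_⟩
    · have h4 := hmem _ (Nat.lt_succ_self _)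
      rwa [Nat.find_spec (h1 y)] at h4
    · intro m hm
      have h4 := hmem m (hm.trans (Nat.lt_succ_self _))
      have h5 : c (e (y, m)) = false := by
        rw [← Bool.not_eq_true]
        exact Nat.find_min (h1 y) hm
      rwa [h5] at h4
  · intro x m b hb
    rcases h3 _ _ hb with h | h
    · exact Or.inl h
    · right
      obtain ⟨y, hy, h4⟩ := Finset.mem_biUnion.1 h
      obtain ⟨k, -, h5⟩ := Finset.mem_image.1 h4
      obtain ⟨rfl, -⟩ := Prod.mk.inj (he h5)
      exact hy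

/-- prescribing the generic function at finitely many new points -/
theorem exists_prescribe {e : X × ℕ → I} (he : Function.Injective e) (r : Cond I)
    (t : Finset (X × ℕ)) (ht : Fn t) (hr : ∀ x n m, (x, n) ∈ t → e (x, m) ∉ r.dom) :
    ∃ r' ≤ r, ∀ x n, (x, n) ∈ t → r' ∈ gn e x n := by
  classical
  obtain ⟨c, hc1, -⟩ := default_ok r
  obtain ⟨r', hr', h2, -⟩ := exists_ext r (fun a =>
      if ∃ x n m, (x, n) ∈ t ∧ m < n ∧ a = e (x, m) then false
      else if ∃ x n, (x, n) ∈ t ∧ a = e (x, n) then true else c a) (by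
    intro a b hb
    have hd : a ∈ r.dom := Cond.mem_dom.2 ⟨b, hb⟩
    rw [if_neg, if_neg]
    · exact hc1 a b hb
    · rintro ⟨x, n, hx, rfl⟩
      exact hr x n n hx hd
    · rintro ⟨x, n, m, hx, -, rfl⟩
      exact hr x n m hx hd)
    (t.biUnion fun y => (Finset.range (y.2 + 1)).image fun n => e (y.1, n))
  refine ⟨r', hr', fun x n hxn => ⟨?_, fun m hm => ?_⟩⟩
  · have h3 := h2 (e (x, n)) (Finset.mem_biUnion.2 ⟨(x, n), hxn,
      Finset.mem_image.2 ⟨n, Finset.mem_range.2 (Nat.lt_succ_self n), rfl⟩⟩)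
    rw [if_neg, if_pos ⟨x, n, hxn, rfl⟩] at h3
    · exact h3
    · rintro ⟨y, k, m, hy, hm, h4⟩
      obtain ⟨rfl, rfl⟩ := Prod.mk.inj (he h4)
      exact absurd (ht _ _ _ hxn hy) hm.ne
  · have h3 := h2 (e (x, m)) (Finset.mem_biUnion.2 ⟨(x, n), hxn,
      Finset.mem_image.2 ⟨m, Finset.mem_range.2 (hm.trans (Nat.lt_succ_self n)), rfl⟩⟩)
    rw [if_pos ⟨x, n, m, hxn, hm, rfl⟩] at h3
    exact h3

theorem isFun_gn {e : X × ℕ → I} (he : Function.Injective e) (p : Cond I) : p ∈ IsFun (gn e) := by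
  classical
  refine ⟨fun x => mem_fex.2 fun q _ => ?_, fun x m n => mem_fimp.2 fun q _ hq => ⟨q, le_rfl, ?_⟩⟩
  · obtain ⟨r', hr', s, -, h1, h2, -⟩ := exists_decide he q {x}
    obtain ⟨n, hn⟩ := (h1 x).1 (Finset.mem_singleton_self x)
    exact ⟨r', hr', n, meets_of_mem (gn_open e x n) (h2 x n hn)⟩
  · obtain ⟨h1, h2⟩ := hq
    obtain ⟨r, hr, u, hu, hru⟩ := h1 q le_rfl
    obtain ⟨r', hr', v, hv, hrv⟩ := h2 r hr
    have hu' := gn_open e x m u hu r' (hr'.trans hru)
    have hv' := gn_open e x n v hv r' hrv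
    show m = n
    rcases lt_trichotomy m n with h | h | h
    · exact absurd (hv'.2 m h) (r'.fn _ hu'.1)
    · exact h
    · exact absurd (hu'.2 n h) (r'.fn _ hv'.1)

end

theorem baire {X L : Type} [LinearOrder L] (D : L → Finset (X × ℕ) → Set (Cond L)) (l : L)
    (hinf : ℵ₀ ≤ #X) (hX : #X < #L) (hl : #(Iio l) < #L) (q : Cond L)
    (hq : q ∈ (fall fun i : L => fimp (fground (i < l)) (fall fun s : Finset (X × ℕ) =>
        fimp (fground (Fn s)) (fex fun t : Finset (X × ℕ) =>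
          fand (fground (s ⊆ t ∧ Fn t)) (meets (D i t)))))) :
    q ∈ (fex fun g : X → ℕ → Set (Cond L) => fand (IsFun g) (fall fun i : L =>
        fimp (fground (i < l))
        (fex fun t : Finset (X × ℕ) => fand (meets (D i t))
          (fall fun x : X => fall fun n : ℕ => fimp (fground ((x, n) ∈ t)) (meets (g x n)))))) := by
  classical
  have hL : ℵ₀ < #L := lt_of_le_of_lt hinf hX
  have hXinf : Infinite X := Cardinal.infinite_iff.2 hinf
  choose S hS1 hS2 using fun (i : L) (t : Finset (X × ℕ)) => exists_support (D i t)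
  let U : Set L := ⋃ i : Iio l, ⋃ t, S i t
  have hXN : #(X × ℕ) = #X := by
    rw [Cardinal.mk_prod, Cardinal.lift_id, Cardinal.lift_id, Cardinal.mk_nat]
    exact Cardinal.mul_eq_left hinf hinf Cardinal.aleph0_ne_zero
  have hfin : #(Finset (X × ℕ)) = #X := by
    rw [Cardinal.mk_finset_of_infinite, hXN]
  have hU : #U < #L := by
    have h1 : ∀ i : Iio l, #(⋃ t, S i t) ≤ #X := by
      intro i
      refine (Cardinal.mk_iUnion_le _).trans ?_
      rw [hfin]
      refine (mul_le_mul' le_rfl (ciSup_le' (a := ℵ₀) fun t => ?_)).trans ?_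
      · exact Cardinal.le_aleph0_iff_set_countable.2 (hS1 i t)
      · exact (mul_le_mul' le_rfl hinf).trans (Cardinal.mul_eq_self hinf).le
    refine lt_of_le_of_lt (Cardinal.mk_iUnion_le _) ?_
    refine lt_of_le_of_lt (mul_le_mul' le_rfl (ciSup_le' h1)) ?_
    exact Cardinal.mul_lt_of_lt hL.le hl hX
  have hLinf : Infinite L := Cardinal.infinite_iff.2 hL.le
  have hUc : #(Uᶜ : Set L) = #L := Cardinal.mk_compl_of_infinite U hU
  obtain ⟨e0⟩ : Nonempty ((X × ℕ) ↪ (Uᶜ : Set L)) := by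
    rw [← Cardinal.le_def, hUc, hXN]
    exact hX.le
  let e : X × ℕ → L := fun y => (e0 y).1
  have he : Function.Injective e := fun a b h => e0.injective (Subtype.ext h)
  have heU : ∀ y, e y ∉ U := fun y => (e0 y).2
  refine mem_fex_self (gn e) fun q0 hq0 => ⟨isFun_gn he q0, fun i => ?_⟩
  refine mem_fimp.2 fun q1 hq1 hi => ⟨q1, le_rfl, mem_fex.2 fun r hr => ?_⟩
  have hi : i < l := hi
  -- step 1
  let T : Finset X := ((Cond.dom_finite r).preimage (f := e) he.injOn).toFinset.image Prod.fst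
  have hT : ∀ x m, e (x, m) ∈ r.dom → x ∈ T := by
    intro x m h
    exact Finset.mem_image.2 ⟨(x, m), (Set.Finite.mem_toFinset _).2 h, rfl⟩
  obtain ⟨r1, hr1, s, hs, hsT, hs1, hs2⟩ := exists_decide he r T
  -- step 2
  obtain ⟨w, hw, hw'⟩ := mem_fimp.1 (hq i) r1 (hr1.trans (hr.trans (hq1.trans hq0))) hi
  obtain ⟨w1, hw1, hw1'⟩ := mem_fimp.1 (hw' s) w le_rfl hs
  obtain ⟨r2, hr2, t, ⟨hst, ht⟩, htD⟩ := mem_fex.1 hw1' w1 le_rfl
  have hr21 : r2 ≤ r1 := hr2.trans (hw1.trans hw)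
  -- step 3
  obtain ⟨r3, h31, h32, h33⟩ := exists_join hr21 (le_rst r2 (S i t))
  have h3D : r3 ∈ meets (D i t) := down_meets (hS2 i t r2 htD) h32
  -- step 4
  obtain ⟨r4, hr4, h4⟩ := exists_prescribe he r3 (t.filter fun y => y.1 ∉ T) (by
      intro x m n hm hn
      exact ht x m n (Finset.mem_filter.1 hm).1 (Finset.mem_filter.1 hn).1) (by
      intro x n m hx hdom
      obtain ⟨b, hb⟩ := Cond.mem_dom.1 hdom
      have hxT := (Finset.mem_filter.1 hx).2
      rcases h33 _ _ hb with h | h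
      · rcases hs2 x m b h with h' | h'
        · exact hxT (hT x m (Cond.mem_dom.2 ⟨b, h'⟩))
        · exact hxT h'
      · exact heU (x, m) (mem_iUnion.2 ⟨⟨i, hi⟩, mem_iUnion.2 ⟨t, (mem_rst.1 h).2⟩⟩))
  refine ⟨r4, hr4.trans (h31.trans hr1), t, down_meets h3D hr4, fun x n => ?_⟩
  refine mem_fimp.2 fun v hv hxn => ⟨v, le_rfl, ?_⟩
  have hxn : (x, n) ∈ t := hxn
  refine down_meets (meets_of_mem (gn_open e x n) ?_) hv
  by_cases hxT : x ∈ T
  · obtain ⟨m, hm⟩ := (hsT x).1 hxT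
    have hmn : m = n := ht x m n (hst hm) hxn
    subst hmn
    exact gn_open e x m r1 (hs1 x m hm) r4 (hr4.trans h31)
  · exact h4 x n (Finset.mem_filter.2 ⟨hxn, hxT⟩)

/-- Adding `λ = 2 ^ #X` Cohen reals forces the hypothesis and preserves cardinals. -/
theorem forced (X : Type) [Infinite X] : ∃ (L : Type) (_ : LinearOrder L) (P : Type)
    (_ : Preorder P), Nonempty P ∧ ∀ p : P, p ∈ HypN P X L ∧
      ∀ Y Z : Type, ℵ₀ < #Z → #Y < #Z → p ∈ NoOnto P Y Z := by
  have hinf : ℵ₀ ≤ #X := Cardinal.aleph0_le_mk X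
  have hL : #(((2 : Cardinal.{0}) ^ #X).ord.ToType) = 2 ^ #X := by
    rw [Cardinal.mk_toType, Cardinal.card_ord]
  have hXL : #X < #(((2 : Cardinal.{0}) ^ #X).ord.ToType) := by
    rw [hL]
    exact Cardinal.cantor _
  have hLinf : ℵ₀ ≤ #(((2 : Cardinal.{0}) ^ #X).ord.ToType) := hinf.trans hXL.le
  refine ⟨((2 : Cardinal.{0}) ^ #X).ord.ToType, inferInstance,
    Cond ((2 : Cardinal.{0}) ^ #X).ord.ToType, inferInstance, ⟨⟨∅, by simp⟩⟩, fun p => ⟨⟨?_, ?_⟩,
      fun Y Z hZ hYZ => noOnto' ccc_cond hZ hYZ p⟩⟩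
  · refine CCC.powLE ccc_cond ?_ p
    have h2 : #(Option (Cond ((2 : Cardinal.{0}) ^ #X).ord.ToType)) ≤ 2 ^ #X := by
      rw [Cardinal.mk_option]
      have h3 : #(Cond ((2 : Cardinal.{0}) ^ #X).ord.ToType) ≤ 2 ^ #X := (mk_cond_le hLinf).trans hL.le
      have h4 : ℵ₀ ≤ (2 : Cardinal.{0}) ^ #X := by rw [← hL]; exact hLinf
      exact (add_le_add h3 (Cardinal.one_le_aleph0.trans h4)).trans (Cardinal.add_eq_self h4).le
    rw [hL, ← Cardinal.power_def, ← Cardinal.power_def, Cardinal.mk_nat]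
    calc (#(Option (Cond ((2 : Cardinal.{0}) ^ #X).ord.ToType)) ^ (ℵ₀ : Cardinal.{0})) ^ #X
        ≤ ((2 ^ #X) ^ (ℵ₀ : Cardinal.{0})) ^ #X :=
          Cardinal.power_le_power_right (Cardinal.power_le_power_right h2)
      _ = 2 ^ #X := by
          rw [← Cardinal.power_mul, ← Cardinal.power_mul, mul_comm (ℵ₀ : Cardinal.{0}) #X,
            Cardinal.mul_eq_left hinf hinf Cardinal.aleph0_ne_zero, Cardinal.mul_eq_self hinf]
  · intro D l
    refine mem_fimp.2 fun q _ hq => ⟨q, le_rfl, ?_⟩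
    refine baire D l hinf hXL ?_ q hq
    rw [hL]
    exact Cardinal.mk_Iio_toType_ord_lt l

end Pool.Agent.R582.CL
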