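import Mathlib
import Pool.Agent.R582.CL.Forced
import Pool.Agent.Results.MP_174cbb_lc.SingularFailure

set_option autoImplicit false

/-!
# The combinatorial hypothesis implies that no clone lattice on an infinite subset is dually atomic
-/

namespace Pool.Agent.R582.CL

open Cardinal Set

theorem mk_le_of_Iio {L : Type} [LinearOrder L] {μ : Cardinal.{0}} (hμ : ℵ₀ ≤ μ)
    (h : ∀ l : L, #(Iio l) < μ) : #L ≤ μ := by
  by_contra hcon
  obtain ⟨S, hS⟩ := Cardinal.le_mk_iff_exists_set.1 (not_le.1 hcon).le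
  have h1 : ∀ l : L, ∃ s : S, l ≤ s.1 := by
    intro l
    by_contra hc
    push Not at hc
    have h2 : S ⊆ Iio l := fun s hs => hc ⟨s, hs⟩
    have h3 := Cardinal.mk_le_mk_of_subset h2
    rw [hS] at h3
    exact absurd (h l) (not_lt.2 h3)
  have h2 : (univ : Set L) ⊆ ⋃ s : S, Iic s.1 := fun l _ => mem_iUnion.2 (h1 l)
  have h3 : ∀ s : S, #(Iic s.1) ≤ μ := by
    intro s
    have h4 : (Iic s.1 : Set L) = Iio s.1 ∪ {s.1} := by
      ext x
      simp [le_iff_lt_or_eq]
    rw [h4]
    refine (Cardinal.mk_union_le _ _).trans (Cardinal.add_le_of_le hμ (h _).le ?_)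
    rw [Cardinal.mk_singleton]
    exact Cardinal.one_le_aleph0.trans hμ
  apply hcon
  rw [← Cardinal.mk_univ]
  refine (Cardinal.mk_le_mk_of_subset h2).trans ((Cardinal.mk_iUnion_le _).trans ?_)
  rw [hS]
  exact (mul_le_mul' le_rfl (ciSup_le' h3)).trans (Cardinal.mul_eq_self hμ).le

theorem baire_of_hyp {X L : Type} [LinearOrder L] (hX : ℵ₀ ≤ #X) (H : Hyp X L) {Y : Type}
    [Infinite Y] (j : Y ↪ X)
    (𝓓 : Set (Set (Y → ℕ))) (h𝓓 : #𝓓 < 2 ^ #Y) (hD : ∀ D ∈ 𝓓, IsOpen D ∧ Dense D) :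
    (⋂₀ 𝓓).Nonempty := by
  classical
  obtain ⟨⟨F, hF⟩, H2⟩ := H
  have hL : (2 : Cardinal.{0}) ^ #X ≤ #L := by
    rw [← Cardinal.mk_set]
    refine Cardinal.mk_le_of_surjective (f := fun l => {x | F l x}) ?_
    intro A
    obtain ⟨l, hl⟩ := hF fun x => x ∈ A
    exact ⟨l, by ext x; exact (hl x).symm⟩
  have hYX : #Y ≤ #X := ⟨j⟩
  have h1 : #𝓓 < #L := h𝓓.trans_le ((Cardinal.power_le_power_left two_ne_zero hYX).trans hL)
  have h2 : max #𝓓 ℵ₀ < #L := max_lt h1 (lt_of_lt_of_le (lt_of_le_of_lt hX (Cardinal.cantor _)) hL)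
  obtain ⟨l, hl⟩ : ∃ l : L, max #𝓓 ℵ₀ ≤ #(Iio l) := by
    by_contra hcon
    push Not at hcon
    exact absurd (mk_le_of_Iio (le_max_right _ _) hcon) (not_le.2 h2)
  obtain ⟨ε⟩ : Nonempty (𝓓 ↪ Iio l) := (Cardinal.le_def _ _).1 ((le_max_left _ _).trans hl)
  -- the sets of finite functions
  let d : L → Set (Y → ℕ) := fun i => if h : ∃ D : 𝓓, (ε D).1 = i then h.choose.1 else univ
  have hd : ∀ D : 𝓓, d (ε D).1 = D.1 := by
    intro D
    have h : ∃ D' : 𝓓, (ε D').1 = (ε D).1 := ⟨D, rfl⟩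
    have h3 : h.choose = D := ε.injective (Subtype.ext h.choose_spec)
    simp only [d, dif_pos h, h3]
  have hdo : ∀ i, IsOpen (d i) ∧ Dense (d i) := by
    intro i
    by_cases h : ∃ D : 𝓓, (ε D).1 = i
    · simp only [d, dif_pos h]
      exact hD _ h.choose.2
    · simp only [d, dif_neg h]
      exact ⟨isOpen_univ, dense_univ⟩
  obtain ⟨g, ⟨hg1, hg2⟩, hg3⟩ := H2 (fun i t => ∀ f : Y → ℕ, (∀ y n, (j y, n) ∈ t → f y = n) →
    f ∈ d i) l (by
    intro i _ s hs
    obtain ⟨f, hfs, hfd⟩ := (hdo i).2.inter_open_nonempty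
      (⋂ a ∈ s, {f : Y → ℕ | ∀ y, j y = a.1 → f y = a.2}) (by
        refine isOpen_biInter_finset fun a _ => ?_
        by_cases h : ∃ y, j y = a.1
        · obtain ⟨y, hy⟩ := h
          have h3 : {f : Y → ℕ | ∀ y, j y = a.1 → f y = a.2} = {f | f y = a.2} := by
            ext f
            constructor
            · intro h; exact h y hy
            · intro h y' hy'
              have : y' = y := j.injective (hy'.trans hy.symm)
              rw [this]; exact h
          rw [h3]
          have h4 : Continuous (fun f : Y → ℕ => f y) := continuous_apply y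
          exact (isOpen_discrete ({a.2} : Set ℕ)).preimage h4
        · push Not at h
          have h3 : {f : Y → ℕ | ∀ y, j y = a.1 → f y = a.2} = Set.univ := by
            ext f
            constructor
            · intro _; trivial
            · intro _ y hy; exact absurd hy (h y)
          rw [h3]
          exact isOpen_univ) (by
        refine ⟨fun y => if h : ∃ n, (j y, n) ∈ s then h.choose else 0, ?_⟩
        refine mem_iInter₂.2 fun a ha y hy => ?_
        have h : ∃ n, (j y, n) ∈ s := ⟨a.2, by rw [hy]; exact ha⟩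
        simp only [dif_pos h]
        refine hs (j y) _ _ h.choose_spec ?_
        rw [hy]
        exact ha)
    obtain ⟨B, u, hu, hsub⟩ := isOpen_pi_iff.1 (hdo i).1 f hfd
    have hfs' : ∀ y n, (j y, n) ∈ s → f y = n := fun y n h => by
      have h3 := mem_iInter₂.1 hfs (j y, n) h
      exact h3 y rfl
    refine ⟨s ∪ B.image fun y => (j y, f y), ⟨Finset.subset_union_left, ?_⟩, ?_⟩
    · intro x m n hm hn
      have key : ∀ k, (x, k) ∈ s ∪ B.image (fun y => (j y, f y)) → (x, k) ∉ s →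
          ∃ y, j y = x ∧ f y = k := by
        intro k hk hks
        rcases Finset.mem_union.1 hk with h | h
        · exact absurd h hks
        · obtain ⟨y, -, hy⟩ := Finset.mem_image.1 h
          exact ⟨y, (Prod.mk.inj hy).1, (Prod.mk.inj hy).2⟩
      by_cases hms : (x, m) ∈ s
      · by_cases hns : (x, n) ∈ s
        · exact hs x m n hms hns
        · obtain ⟨y, rfl, rfl⟩ := key n hn hns
          exact (hfs' y m hms).symm
      · obtain ⟨y, rfl, rfl⟩ := key m hm hms
        by_cases hns : (j y, n) ∈ s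
        · exact hfs' y n hns
        · obtain ⟨y', hy', rfl⟩ := key n hn hns
          rw [j.injective hy']
    · intro f' hf'
      apply hsub
      intro y hy
      rw [hf' y (f y) (Finset.mem_union_right _ (Finset.mem_image.2 ⟨y, hy, rfl⟩))]
      exact (hu y hy).2)
  choose G hG using hg1
  refine ⟨fun y => G (j y), ?_⟩
  intro D hDm
  obtain ⟨t, ht, hgt⟩ := hg3 (ε ⟨D, hDm⟩).1 (ε ⟨D, hDm⟩).2
  have h3 := ht (fun y => G (j y)) (fun y n h => hg2 _ _ _ ⟨hG _, hgt _ _ h⟩)
  rw [hd] at h3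
  exact h3

/-- The hypothesis implies that the clone lattice on no infinite set of cardinality at most `#X` is
dually atomic. -/
theorem not_duallyAtomic {X L : Type} [LinearOrder L] (hX : ℵ₀ ≤ #X) (H : Hyp X L) (Y : Type)
    [Infinite Y] (hY : #Y ≤ #X) :
    ¬ Pool.Agent.Results.MP_174cbb_lc.Regular.DuallyAtomic Y := by
  obtain ⟨j⟩ := hY
  exact Pool.Agent.Results.MP_174cbb_lc.SingularFailure.result Y fun 𝓓 h1 h2 =>
    baire_of_hyp hX H j 𝓓 h1 h2

end Pool.Agent.R582.CL
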